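import Mathlib

open MeasureTheory Filter Topology

namespace Pool.Agent.helper31.AZ

theorem differentiableOn_integral {X : Type*} [MeasurableSpace X] (μ : Measure X)
    {U : Set ℂ} (hU : IsOpen U) (F : ℂ → X → ℂ)
    (hmeas : ∀ s ∈ U, AEStronglyMeasurable (F s) μ)
    (hdiff : ∀ x, DifferentiableOn ℂ (fun s => F s x) U)
    (hdom : ∀ s₀ ∈ U, ∃ ε > 0, ∃ g : X → ℝ, Integrable g μ ∧
      ∀ s ∈ Metric.ball s₀ ε, s ∈ U → ∀ x, ‖F s x‖ ≤ g x) :
    DifferentiableOn ℂ (fun s => ∫ x, F s x ∂μ) U := by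
  intro s₀ hs₀
  obtain ⟨ε, hε, g, hg, hb⟩ := hdom s₀ hs₀
  obtain ⟨δ, hδ, hδU⟩ := Metric.isOpen_iff.mp hU s₀ hs₀
  obtain ⟨r, hr, hr1, hr2⟩ : ∃ r > 0, 2 * r < ε ∧ 2 * r < δ := by
    refine ⟨min ε δ / 4, by positivity, ?_, ?_⟩
    · have := min_le_left ε δ
      linarith
    · have := min_le_right ε δ
      linarith
  have hsub : ∀ s ∈ Metric.ball s₀ r, Metric.closedBall s r ⊆ Metric.ball s₀ ε ∩ U := by
    intro s hs z hz
    rw [Metric.mem_closedBall] at hz
    rw [Metric.mem_ball] at hs
    have h1 : dist z s₀ < 2 * r := by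
      have := dist_triangle z s s₀
      linarith
    exact ⟨by rw [Metric.mem_ball]; linarith, hδU (by rw [Metric.mem_ball]; linarith)⟩
  have hda : ∀ s ∈ U, ∀ x, HasDerivAt (fun s => F s x) (deriv (fun s => F s x) s) s := by
    intro s hs x
    exact ((hdiff x).differentiableAt (hU.mem_nhds hs)).hasDerivAt
  have key := hasDerivAt_integral_of_dominated_loc_of_deriv_le (μ := μ) (F := F)
    (F' := fun s x => deriv (fun s => F s x) s) (x₀ := s₀) (s := Metric.ball s₀ r)
    (bound := fun x => g x / r) (Metric.ball_mem_nhds s₀ hr)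
    ?_ ?_ ?_ ?_ ?_ ?_
  · exact key.2.differentiableAt.differentiableWithinAt
  · filter_upwards [hU.mem_nhds hs₀] with s hs using hmeas s hs
  · exact hg.mono' (hmeas s₀ hs₀) (Eventually.of_forall fun x =>
      hb s₀ (Metric.mem_ball_self hε) hs₀ x)
  · -- measurability of the derivative
    have hlim : ∀ x, Tendsto (fun n : ℕ => ((r / 2 / (n + 1 : ℝ) : ℝ) : ℂ)⁻¹ •
        (F (s₀ + ((r / 2 / (n + 1 : ℝ) : ℝ) : ℂ)) x - F s₀ x)) atTop
        (𝓝 (deriv (fun s => F s x) s₀)) := by
      intro x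
      have h1 := (hasDerivAt_iff_tendsto_slope_zero.mp (hda s₀ hs₀ x))
      refine h1.comp ?_
      rw [tendsto_nhdsWithin_iff]
      constructor
      · have : Tendsto (fun n : ℕ => (r / 2 / (n + 1 : ℝ) : ℝ)) atTop (𝓝 0) := by
          have h2 := tendsto_one_div_add_atTop_nhds_zero_nat (𝕜 := ℝ)
          have h3 := h2.const_mul (r / 2)
          simpa [div_eq_mul_inv] using h3
        have h4 := (Complex.continuous_ofReal.tendsto (0 : ℝ)).comp this
        rw [Complex.ofReal_zero] at h4
        exact h4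
      · refine Eventually.of_forall fun n => ?_
        simp only [Set.mem_compl_iff, Set.mem_singleton_iff, Complex.ofReal_eq_zero]
        positivity
    refine aestronglyMeasurable_of_tendsto_ae atTop (fun n => ?_) (Eventually.of_forall hlim)
    have hmem : s₀ + ((r / 2 / (n + 1 : ℝ) : ℝ) : ℂ) ∈ U := ?_
    · have h6 := ((hmeas _ hmem).sub (hmeas s₀ hs₀)).const_smul
        ((r / 2 / (n + 1 : ℝ) : ℝ) : ℂ)⁻¹
      exact h6
    refine hδU ?_
    rw [Metric.mem_ball, dist_eq_norm]
    simp only [add_sub_cancel_left, Complex.norm_real, Real.norm_eq_abs]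
    rw [abs_of_pos (by positivity)]
    have h5 : r / 2 / (n + 1 : ℝ) ≤ r / 2 := by
      apply div_le_self (by positivity)
      have : (0 : ℝ) ≤ n := by positivity
      linarith
    linarith
  · refine Eventually.of_forall fun x s hs => ?_
    refine Complex.norm_deriv_le_of_forall_mem_sphere_norm_le hr ?_ ?_
    · refine DifferentiableOn.diffContOnCl ?_
      rw [closure_ball _ hr.ne']
      exact (hdiff x).mono fun z hz => (hsub s hs hz).2
    · intro z hz
      have hz' := hsub s hs (Metric.sphere_subset_closedBall hz)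
      exact hb z hz'.1 hz'.2 x
  · exact hg.div_const r
  · refine Eventually.of_forall fun x s hs => ?_
    exact hda s (hsub s hs (Metric.mem_closedBall_self hr.le)).2 x

end Pool.Agent.helper31.AZ
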