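import Pool.Agent.helper67.AZ.Defs

open MeasureTheory Filter Topology

namespace Pool.Agent.helper31.AZ

open Pool.Agent.helper67.AZ

/-- the diagonal scaling. -/
noncomputable def T (a b c : ℝ) (p : ℂ × ℂ × ℂ) : ℂ × ℂ × ℂ := (a • p.1, b • p.2.1, c • p.2.2)

noncomputable def Th {a b c : ℝ} (ha : a ≠ 0) (hb : b ≠ 0) (hc : c ≠ 0) :
    (ℂ × ℂ × ℂ) ≃ₜ (ℂ × ℂ × ℂ) :=
  (Homeomorph.smulOfNeZero a ha).prodCongr
    ((Homeomorph.smulOfNeZero b hb).prodCongr (Homeomorph.smulOfNeZero c hc))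

lemma Th_apply {a b c : ℝ} (ha : a ≠ 0) (hb : b ≠ 0) (hc : c ≠ 0) (p : ℂ × ℂ × ℂ) :
    Th ha hb hc p = T a b c p := rfl

lemma map_smul_C {a : ℝ} (ha : 0 < a) :
    Measure.map (a • ·) (volume : Measure ℂ) = ENNReal.ofReal ((a ^ 2)⁻¹) • volume := by
  rw [Measure.map_addHaar_smul _ ha.ne', Complex.finrank_real_complex, abs_of_pos (by positivity)]

lemma map_T {a b c : ℝ} (ha : 0 < a) (hb : 0 < b) (hc : 0 < c) :
    Measure.map (T a b c) (volume : Measure (ℂ × ℂ × ℂ)) =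
      ENNReal.ofReal (((a * b * c) ^ 2)⁻¹) • volume := by
  have h1 : T a b c = Prod.map (a • · : ℂ → ℂ) (Prod.map (b • · : ℂ → ℂ) (c • · : ℂ → ℂ)) := rfl
  have hm : ∀ r : ℝ, Measurable (fun z : ℂ => r • z) := fun r => measurable_const_smul r
  rw [h1]
  show Measure.map _ ((volume : Measure ℂ).prod ((volume : Measure ℂ).prod volume)) =
    _ • (volume : Measure ℂ).prod ((volume : Measure ℂ).prod volume)
  rw [← Measure.map_prod_map _ _ (hm a) ((hm b).prodMap (hm c)),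
    ← Measure.map_prod_map _ _ (hm b) (hm c), map_smul_C ha, map_smul_C hb, map_smul_C hc,
    Measure.prod_smul_left, Measure.prod_smul_left, Measure.prod_smul_right,
    Measure.prod_smul_right, Measure.prod_smul_right, smul_smul, smul_smul,
    ← ENNReal.ofReal_mul (by positivity), ← ENNReal.ofReal_mul (by positivity)]
  congr 2
  field_simp

lemma integrable_comp_T {a b c : ℝ} (ha : 0 < a) (hb : 0 < b) (hc : 0 < c)
    {F : ℂ × ℂ × ℂ → ℂ} (hF : Integrable F) : Integrable (fun p => F (T a b c p)) := by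
  have h1 : MeasurableEmbedding (T a b c) :=
    (Th ha.ne' hb.ne' hc.ne').measurableEmbedding
  have h2 : Integrable F (Measure.map (T a b c) volume) := by
    rw [map_T ha hb hc]
    exact hF.smul_measure ENNReal.ofReal_ne_top
  exact h1.integrable_map_iff.mp h2

lemma integral_comp_T {a b c : ℝ} (ha : 0 < a) (hb : 0 < b) (hc : 0 < c)
    (F : ℂ × ℂ × ℂ → ℂ) :
    ∫ p, F (T a b c p) = (((a * b * c) ^ 2)⁻¹ : ℝ) • ∫ p, F p := by
  have h1 : MeasurableEmbedding (T a b c) :=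
    (Th ha.ne' hb.ne' hc.ne').measurableEmbedding
  rw [← h1.integral_map, map_T ha hb hc, integral_smul_measure,
    ENNReal.toReal_ofReal (by positivity)]

lemma norm_pw (s x : ℂ) (hx : x ≠ 0) : ‖pw s x‖ = ‖x‖ ^ s.re := by
  unfold pw
  rw [if_neg hx, Complex.norm_exp, Real.rpow_def_of_pos (norm_pos_iff.mpr hx)]
  congr 1
  simp [mul_comm]

lemma pw_eq_cpow {s : ℂ} (hs : s ≠ 0) (x : ℂ) : pw s x = ((‖x‖ : ℝ) : ℂ) ^ s := by
  unfold pw
  split_ifs with h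
  · rw [h]
    simp [Complex.zero_cpow hs]
  · rw [Complex.cpow_def_of_ne_zero (by simpa using h), Complex.ofReal_log (norm_nonneg x),
      mul_comm]

lemma continuous_pw {s : ℂ} (hs : 0 < s.re) : Continuous (pw s) := by
  have h0 : s ≠ 0 := by
    rintro rfl
    simp at hs
  have : pw s = fun x : ℂ => ((‖x‖ : ℝ) : ℂ) ^ s := funext (pw_eq_cpow h0)
  rw [this]
  exact (Complex.continuous_ofReal_cpow_const hs).comp continuous_norm

lemma pw_two_mul (s x : ℂ) : pw s (2 * x) = (2 : ℂ) ^ s * pw s x := by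
  unfold pw
  by_cases h : x = 0
  · simp [h]
  · have h2 : (2 : ℂ) * x ≠ 0 := mul_ne_zero two_ne_zero h
    rw [if_neg h, if_neg h2, norm_mul, Real.log_mul (by simp) (by simpa using h),
      Complex.cpow_def_of_ne_zero two_ne_zero, ← Complex.exp_add]
    congr 1
    have : Complex.log 2 = ((Real.log ‖(2 : ℂ)‖ : ℝ) : ℂ) := by
      rw [Complex.norm_ofNat, Complex.ofReal_log (by norm_num)]
      norm_num
    rw [this]
    push_cast
    ring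

lemma two_cpow_mul (a b : ℂ) : (2 : ℂ) ^ a * (2 : ℂ) ^ b = (2 : ℂ) ^ (a + b) :=
  (Complex.cpow_add _ _ two_ne_zero).symm

lemma two_cpow_neg_nat (n : ℕ) : (2 : ℂ) ^ (-(n : ℂ)) = (2 ^ n)⁻¹ := by
  rw [Complex.cpow_neg, Complex.cpow_natCast]

/-- abstract doubling step. -/
lemma double_step {a b c : ℝ} (ha : 0 < a) (hb : 0 < b) (hc : 0 < c)
    {F : ℂ × ℂ × ℂ → ℂ} (hF : Integrable F) (κ : ℂ) :
    Integrable (fun p => κ * F (T a b c p) - F p) ∧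
    ∫ p, (κ * F (T a b c p) - F p) = (κ * (((a * b * c) ^ 2)⁻¹ : ℝ) - 1) * ∫ p, F p := by
  have h1 := (integrable_comp_T ha hb hc hF).const_mul κ
  refine ⟨h1.sub hF, ?_⟩
  rw [integral_sub h1 hF, integral_const_mul, integral_comp_T ha hb hc]
  rw [Complex.real_smul]
  ring

noncomputable def G3 (t : ℝ) (φ : ℂ × ℂ × ℂ → ℂ) (s : ℂ) (p : ℂ × ℂ × ℂ) : ℂ :=
  pw (6 * s) p.1 * pw (2 * s) (p.1 - p.2.2) * pw (4 * s) p.2.2 *
    pw (2 * s) p.2.1 * pw (2 * s) (mf t p.1 p.2.1 p.2.2) * φ p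

noncomputable def G2 (t : ℝ) (φ : ℂ × ℂ × ℂ → ℂ) (s : ℂ) (p : ℂ × ℂ × ℂ) : ℂ :=
  pw (6 * s) p.1 * Kf s p.1 p.2.2 * Nf t φ s p.1 p.2.1 p.2.2

noncomputable def G1 (t : ℝ) (φ : ℂ × ℂ × ℂ → ℂ) (s : ℂ) (p : ℂ × ℂ × ℂ) : ℂ :=
  pw (6 * s) p.1 * Xi t φ s p.1 p.2.1 p.2.2

lemma integrable_G3 {t : ℝ} {φ : ℂ × ℂ × ℂ → ℂ} (hc : Continuous φ) (hφ : HasCompactSupport φ)
    {s : ℂ} (hs : 0 < s.re) : Integrable (G3 t φ s) := by
  have h6 : Continuous (pw (6 * s)) := continuous_pw (by simpa using hs)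
  have h2 : Continuous (pw (2 * s)) := continuous_pw (by simpa using hs)
  have h4 : Continuous (pw (4 * s)) := continuous_pw (by simpa using hs)
  have hm : Continuous (fun p : ℂ × ℂ × ℂ => mf t p.1 p.2.1 p.2.2) := by
    unfold mf
    fun_prop
  apply Continuous.integrable_of_hasCompactSupport
  · unfold G3
    have e1 := h6.comp (continuous_fst (X := ℂ) (Y := ℂ × ℂ))
    have e2 : Continuous (fun p : ℂ × ℂ × ℂ => pw (2 * s) (p.1 - p.2.2)) :=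
      h2.comp (by fun_prop)
    have e3 : Continuous (fun p : ℂ × ℂ × ℂ => pw (4 * s) p.2.2) := h4.comp (by fun_prop)
    have e4 : Continuous (fun p : ℂ × ℂ × ℂ => pw (2 * s) p.2.1) := h2.comp (by fun_prop)
    have e5 : Continuous (fun p : ℂ × ℂ × ℂ => pw (2 * s) (mf t p.1 p.2.1 p.2.2)) := h2.comp hm
    exact ((((e1.mul e2).mul e3).mul e4).mul e5).mul hc
  · exact HasCompactSupport.mul_left hφ

lemma mf_two_mul (t : ℝ) (x y z : ℂ) : mf t (2 * x) (2 * y) (2 * z) = 2 * mf t x y z := by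
  unfold mf
  ring

lemma T_one {c : ℝ} (x : ℂ) (hc : c = 1) : c • x = x := by rw [hc, one_smul]

lemma G2_eq (t : ℝ) (φ : ℂ × ℂ × ℂ → ℂ) (s : ℂ) (p : ℂ × ℂ × ℂ) :
    G2 t φ s p = (2 : ℂ) ^ (-16 * s) * G3 t φ s (T 2 2 2 p) - G3 t φ s p := by
  obtain ⟨x, y, z⟩ := p
  have hT : T 2 2 2 (x, y, z) = (2 * x, 2 * y, 2 * z) := by
    simp [T]
  rw [hT]
  simp only [G2, G3, Nf, Kf, D0]
  rw [mf_two_mul, ← mul_sub, pw_two_mul, pw_two_mul, pw_two_mul, pw_two_mul, pw_two_mul]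
  have h : (2 : ℂ) ^ (-16 * s) * ((2 : ℂ) ^ (6 * s) * (2 : ℂ) ^ (2 * s) * (2 : ℂ) ^ (4 * s) *
      (2 : ℂ) ^ (2 * s) * (2 : ℂ) ^ (2 * s)) = 1 := by
    rw [two_cpow_mul, two_cpow_mul, two_cpow_mul, two_cpow_mul, two_cpow_mul]
    have : -16 * s + (6 * s + 2 * s + 4 * s + 2 * s + 2 * s) = 0 := by ring
    rw [this, Complex.cpow_zero]
  linear_combination (-(pw (6 * s) x * pw (2 * s) (x - z) * pw (4 * s) z *
    pw (2 * s) y * pw (2 * s) (mf t x y z) * φ (2 * x, 2 * y, 2 * z))) * h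

lemma G1_eq (t : ℝ) (φ : ℂ × ℂ × ℂ → ℂ) (s : ℂ) (p : ℂ × ℂ × ℂ) :
    G1 t φ s p = (2 : ℂ) ^ (-12 * s) * G2 t φ s (T 2 1 2 p) - G2 t φ s p := by
  obtain ⟨x, y, z⟩ := p
  have hT : T 2 1 2 (x, y, z) = (2 * x, y, 2 * z) := by
    simp [T]
  rw [hT]
  simp only [G1, G2, Xi, Kf]
  rw [← mul_sub, pw_two_mul, pw_two_mul, pw_two_mul]
  have h : (2 : ℂ) ^ (-12 * s) * ((2 : ℂ) ^ (6 * s) * (2 : ℂ) ^ (2 * s) * (2 : ℂ) ^ (4 * s)) =
      1 := by
    rw [two_cpow_mul, two_cpow_mul, two_cpow_mul]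
    have : -12 * s + (6 * s + 2 * s + 4 * s) = 0 := by ring
    rw [this, Complex.cpow_zero]
  linear_combination (-(pw (6 * s) x * pw (2 * s) (x - z) * pw (4 * s) z *
    Nf t φ s (2 * x) y (2 * z))) * h

lemma Ef_eq (t : ℝ) (φ : ℂ × ℂ × ℂ → ℂ) (s : ℂ) (p : ℂ × ℂ × ℂ) :
    Ef t φ s p = (2 : ℂ) ^ (-6 * s) * G1 t φ s (T 2 1 1 p) - G1 t φ s p := by
  obtain ⟨x, y, z⟩ := p
  have hT : T 2 1 1 (x, y, z) = (2 * x, y, z) := by
    simp [T]
  rw [hT]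
  simp only [G1, Ef]
  rw [pw_two_mul]
  have h : (2 : ℂ) ^ (-6 * s) * (2 : ℂ) ^ (6 * s) = 1 := by
    rw [two_cpow_mul]
    have : -6 * s + 6 * s = 0 := by ring
    rw [this, Complex.cpow_zero]
  linear_combination (-(pw (6 * s) x * Xi t φ s (2 * x) y z)) * h

lemma cst (a : ℂ) (n : ℕ) : (2 : ℂ) ^ (a - n) = (2 : ℂ) ^ a * (2 ^ n)⁻¹ := by
  rw [sub_eq_add_neg, ← two_cpow_mul, two_cpow_neg_nat]

theorem Wf_eq {t : ℝ} {φ : ℂ × ℂ × ℂ → ℂ} (hc : Continuous φ) (hφ : HasCompactSupport φ)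
    {s : ℂ} (hs : 0 < s.re) :
    Wf t φ s = ((2 : ℂ) ^ (-16 * s - 6) - 1) * ((2 : ℂ) ^ (-12 * s - 4) - 1) *
      ((2 : ℂ) ^ (-6 * s - 2) - 1) * Zf t φ s := by
  have i3 := integrable_G3 (t := t) hc hφ hs
  have s2 := double_step (a := 2) (b := 2) (c := 2) (by norm_num) (by norm_num) (by norm_num)
    i3 ((2 : ℂ) ^ (-16 * s))
  have e2 : (fun p => (2 : ℂ) ^ (-16 * s) * G3 t φ s (T 2 2 2 p) - G3 t φ s p) = G2 t φ s :=
    funext fun p => (G2_eq t φ s p).symm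
  rw [e2] at s2
  obtain ⟨i2, j2⟩ := s2
  have s1 := double_step (a := 2) (b := 1) (c := 2) (by norm_num) (by norm_num) (by norm_num)
    i2 ((2 : ℂ) ^ (-12 * s))
  have e1 : (fun p => (2 : ℂ) ^ (-12 * s) * G2 t φ s (T 2 1 2 p) - G2 t φ s p) = G1 t φ s :=
    funext fun p => (G1_eq t φ s p).symm
  rw [e1] at s1
  obtain ⟨i1, j1⟩ := s1
  have s0 := double_step (a := 2) (b := 1) (c := 1) (by norm_num) (by norm_num) (by norm_num)
    i1 ((2 : ℂ) ^ (-6 * s))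
  have e0 : ∫ p, ((2 : ℂ) ^ (-6 * s) * G1 t φ s (T 2 1 1 p) - G1 t φ s p) =
    Wf t φ s := by
    unfold Wf
    congr 1
    exact funext fun p => (Ef_eq t φ s p).symm
  rw [e0] at s0
  rw [s0.2, j1, j2]
  have hZ : Zf t φ s = ∫ p, G3 t φ s p := rfl
  rw [hZ]
  have c6 := cst (-16 * s) 6
  have c4 := cst (-12 * s) 4
  have c2 := cst (-6 * s) 2
  push_cast at c6 c4 c2 ⊢
  rw [c6, c4, c2]
  norm_num
  ring

end Pool.Agent.helper31.AZ
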