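import Pool.Agent.helper67.AZ.Defs
import Pool.Agent.helper11.AZ.P2

open MeasureTheory Filter Topology

namespace Pool.Agent.helper31.AZ

open Pool.Agent.helper67.AZ

theorem two_point' {α β : ℝ} (hα : 0 ≤ α) (hα2 : α < 2) (hβ : 0 ≤ β) (hβ2 : β < 2)
    (h : 2 < α + β) : Integrable (fun y : ℂ => ‖y‖ ^ (-α) * ‖y - 1‖ ^ (-β)) :=
  Pool.Agent.helper11.AZ.two_point hα hα2 hβ hβ2 h

/-- the integrand of `H`. -/
noncomputable def FH (t : ℝ) (u : ℂ) : ℝ :=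
  ‖u‖ ^ (-(9 / 4) : ℝ) *
    (‖u - 1‖ ^ (-(3 / 4) : ℝ) * ‖(1 - (t : ℂ)) + (t : ℂ) * u‖ ^ ((1 / 2) : ℝ)
      - (1 - t) ^ ((1 / 2) : ℝ))

/-- the dominating function. -/
noncomputable def gH (u : ℂ) : ℝ :=
  8 * (‖u‖ ^ (-(7 / 4) : ℝ) * ‖u - 1‖ ^ (-(3 / 4) : ℝ)) +
    2 * (‖u‖ ^ (-(7 / 4) : ℝ) * ‖u - 1‖ ^ (-(1 / 2) : ℝ))

lemma gH_integrable : Integrable gH := by
  have h1 := two_point' (α := 7 / 4) (β := 3 / 4) (by norm_num) (by norm_num) (by norm_num)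
    (by norm_num) (by norm_num)
  have h2 := two_point' (α := 7 / 4) (β := 1 / 2) (by norm_num) (by norm_num) (by norm_num)
    (by norm_num) (by norm_num)
  exact (h1.const_mul 8).add (h2.const_mul 2)

lemma FH_measurable (t : ℝ) : Measurable (FH t) := by
  unfold FH
  fun_prop

/-- `|x^{-3/4} - 1| ≤ 2 |x - 1|` for `x ≥ 1/2`, more generally for exponents in `[0,1]`. -/
lemma rpow_neg_sub_one {x a : ℝ} (hx : 1 / 2 ≤ x) (ha : 0 ≤ a) (ha1 : a ≤ 1) :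
    |x ^ (-a) - 1| ≤ 2 * |x - 1| := by
  have hx0 : 0 < x := by linarith
  have h1 : x ^ (-a) = (x⁻¹) ^ a := by
    rw [Real.rpow_neg hx0.le, Real.inv_rpow hx0.le]
  rw [h1]
  have h2 : |(x⁻¹) ^ a - 1| ≤ |x⁻¹ - 1| := by
    rcases le_total 1 x⁻¹ with h | h
    · have h3 : 1 ≤ (x⁻¹) ^ a := Real.one_le_rpow h ha
      have h4 : (x⁻¹) ^ a ≤ x⁻¹ := by
        calc (x⁻¹) ^ a ≤ (x⁻¹) ^ (1 : ℝ) := Real.rpow_le_rpow_of_exponent_le h ha1
          _ = x⁻¹ := Real.rpow_one _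
      rw [abs_of_nonneg (by linarith), abs_of_nonneg (by linarith)]
      linarith
    · have h3 : (x⁻¹) ^ a ≤ 1 := Real.rpow_le_one (by positivity) h ha
      have h4 : x⁻¹ ≤ (x⁻¹) ^ a := by
        calc x⁻¹ = (x⁻¹) ^ (1 : ℝ) := (Real.rpow_one _).symm
          _ ≤ (x⁻¹) ^ a := Real.rpow_le_rpow_of_exponent_ge (by positivity) h ha1
      rw [abs_of_nonpos (by linarith), abs_of_nonpos (by linarith)]
      linarith
  refine h2.trans ?_
  have h5 : x⁻¹ - 1 = (1 - x) * x⁻¹ := by field_simp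
  rw [h5, abs_mul, abs_of_pos (inv_pos.mpr hx0), abs_sub_comm, mul_comm]
  apply mul_le_mul_of_nonneg_right _ (abs_nonneg _)
  rw [inv_le_comm₀ hx0 (by norm_num)]
  linarith

lemma rpow_neg_le_two {x a : ℝ} (hx : 1 / 2 ≤ x) (ha : 0 ≤ a) (ha1 : a ≤ 1) :
    x ^ (-a) ≤ 2 := by
  have hx0 : 0 < x := by linarith
  calc x ^ (-a) ≤ (1 / 2 : ℝ) ^ (-a) :=
        Real.rpow_le_rpow_of_nonpos (by norm_num) hx (by linarith)
    _ = 2 ^ a := by
        rw [Real.rpow_neg (by norm_num), one_div, Real.inv_rpow (by norm_num), inv_inv]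
    _ ≤ 2 ^ (1 : ℝ) := Real.rpow_le_rpow_of_exponent_le (by norm_num) ha1
    _ = 2 := by norm_num

lemma half_le_rpow_neg {x a : ℝ} (hx0 : 0 < x) (hx : x ≤ 2) (ha : 0 ≤ a) (ha1 : a ≤ 1) :
    1 / 2 ≤ x ^ (-a) := by
  calc (1 / 2 : ℝ) = 2 ^ (-(1 : ℝ)) := by
        rw [Real.rpow_neg (by norm_num), Real.rpow_one]; norm_num
    _ ≤ 2 ^ (-a) := Real.rpow_le_rpow_of_exponent_le (by norm_num) (by linarith)
    _ ≤ x ^ (-a) := Real.rpow_le_rpow_of_nonpos hx0 hx (by linarith)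

lemma abs_sqrt_sub {a b : ℝ} (ha : 0 ≤ a) (hb : 0 ≤ b) :
    |a ^ ((1 / 2) : ℝ) - b ^ ((1 / 2) : ℝ)| ≤ |a - b| ^ ((1 / 2) : ℝ) := by
  rw [← Real.sqrt_eq_rpow, ← Real.sqrt_eq_rpow, ← Real.sqrt_eq_rpow]
  apply Real.abs_le_sqrt
  have ha' := Real.sq_sqrt ha
  have hb' := Real.sq_sqrt hb
  have h0 := Real.sqrt_nonneg a
  have h1 := Real.sqrt_nonneg b
  rcases le_total a b with h | h
  · have h2 := Real.sqrt_le_sqrt h
    rw [abs_of_nonpos (by linarith)]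
    nlinarith
  · have h2 := Real.sqrt_le_sqrt h
    rw [abs_of_nonneg (by linarith)]
    nlinarith

lemma FH_bound {t : ℝ} (ht : 0 ≤ t) (ht1 : t ≤ 1) {u : ℂ} (hu : u ≠ 1) :
    |FH t u| ≤ gH u := by
  have hv : 0 < ‖u - 1‖ := norm_pos_iff.mpr (sub_ne_zero.mpr hu)
  by_cases hu0 : u = 0
  · subst hu0
    have : FH t 0 = 0 := by
      unfold FH
      rw [norm_zero, Real.zero_rpow (by norm_num), zero_mul]
    rw [this, abs_zero]
    unfold gH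
    positivity
  have hx : 0 < ‖u‖ := norm_pos_iff.mpr hu0
  set x := ‖u‖ with hxdef
  set v := ‖u - 1‖ with hvdef
  have hvx1 : |v - 1| ≤ x := by
    have h1 := abs_norm_sub_norm_le (u - 1) (-1)
    rw [norm_neg, norm_one, sub_neg_eq_add, sub_add_cancel] at h1
    exact h1
  have hv_le : v ≤ 1 + x := by
    have := (abs_le.mp hvx1).2
    linarith
  set A := ‖(1 - (t : ℂ)) + (t : ℂ) * u‖ with hA
  have hA0 : 0 ≤ A := norm_nonneg _
  have hnt : ‖(1 - (t : ℂ))‖ = 1 - t := by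
    have : (1 - (t : ℂ)) = ((1 - t : ℝ) : ℂ) := by push_cast; ring
    rw [this, Complex.norm_real, Real.norm_of_nonneg (by linarith)]
  have hntu : ‖(t : ℂ) * u‖ = t * x := by
    rw [norm_mul, Complex.norm_real, Real.norm_of_nonneg ht]
  have hA1 : |A - (1 - t)| ≤ t * x := by
    have h1 := abs_norm_sub_norm_le ((1 - (t : ℂ)) + (t : ℂ) * u) (1 - (t : ℂ))
    rw [hnt, add_sub_cancel_left, hntu] at h1
    exact h1
  have hB1 : (1 - t) ^ ((1 / 2) : ℝ) ≤ 1 := Real.rpow_le_one (by linarith) (by linarith)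
    (by norm_num)
  have hB0 : 0 ≤ (1 - t) ^ ((1 / 2) : ℝ) := Real.rpow_nonneg (by linarith) _
  have hFH : FH t u = x ^ (-(9 / 4) : ℝ) *
    (v ^ (-(3 / 4) : ℝ) * A ^ ((1 / 2) : ℝ) - (1 - t) ^ ((1 / 2) : ℝ)) := rfl
  have hgH : gH u = 8 * (x ^ (-(7 / 4) : ℝ) * v ^ (-(3 / 4) : ℝ)) +
    2 * (x ^ (-(7 / 4) : ℝ) * v ^ (-(1 / 2) : ℝ)) := rfl
  have hsplit : x ^ (-(9 / 4) : ℝ) * x ^ ((1 / 2) : ℝ) = x ^ (-(7 / 4) : ℝ) := by
    rw [← Real.rpow_add hx]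
    norm_num
  have hx94 : 0 < x ^ (-(9 / 4) : ℝ) := Real.rpow_pos_of_pos hx _
  have hx74 : 0 < x ^ (-(7 / 4) : ℝ) := Real.rpow_pos_of_pos hx _
  have hv34 : 0 < v ^ (-(3 / 4) : ℝ) := Real.rpow_pos_of_pos hv _
  have hv12 : 0 < v ^ (-(1 / 2) : ℝ) := Real.rpow_pos_of_pos hv _
  have hx12 : 0 < x ^ ((1 / 2) : ℝ) := Real.rpow_pos_of_pos hx _
  have hA12 : 0 ≤ A ^ ((1 / 2) : ℝ) := Real.rpow_nonneg hA0 _
  rw [hFH, hgH, abs_mul, abs_of_pos hx94]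
  rcases le_or_gt x (1 / 2) with hx2 | hx2
  · -- near zero
    have hv2 : 1 / 2 ≤ v := by
      have := (abs_le.mp hvx1).1
      linarith
    have e1 : |A ^ ((1 / 2) : ℝ) - (1 - t) ^ ((1 / 2) : ℝ)| ≤ x ^ ((1 / 2) : ℝ) := by
      refine (abs_sqrt_sub hA0 (by linarith)).trans ?_
      apply Real.rpow_le_rpow (abs_nonneg _) _ (by norm_num)
      refine hA1.trans ?_
      nlinarith
    have e2 : v ^ (-(3 / 4) : ℝ) ≤ 2 := rpow_neg_le_two hv2 (by norm_num) (by norm_num)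
    have e3 : |v ^ (-(3 / 4) : ℝ) - 1| ≤ 2 * x := by
      refine (rpow_neg_sub_one hv2 (by norm_num) (by norm_num)).trans ?_
      linarith
    have e4 : x ≤ x ^ ((1 / 2) : ℝ) := by
      calc x = x ^ (1 : ℝ) := (Real.rpow_one x).symm
        _ ≤ x ^ ((1 / 2) : ℝ) :=
          Real.rpow_le_rpow_of_exponent_ge hx (by linarith) (by norm_num)
    have e5 : |v ^ (-(3 / 4) : ℝ) * A ^ ((1 / 2) : ℝ) - (1 - t) ^ ((1 / 2) : ℝ)| ≤
        4 * x ^ ((1 / 2) : ℝ) := by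
      have : v ^ (-(3 / 4) : ℝ) * A ^ ((1 / 2) : ℝ) - (1 - t) ^ ((1 / 2) : ℝ) =
        v ^ (-(3 / 4) : ℝ) * (A ^ ((1 / 2) : ℝ) - (1 - t) ^ ((1 / 2) : ℝ)) +
          (1 - t) ^ ((1 / 2) : ℝ) * (v ^ (-(3 / 4) : ℝ) - 1) := by ring
      rw [this]
      refine (abs_add_le _ _).trans ?_
      rw [abs_mul, abs_mul, abs_of_pos hv34, abs_of_nonneg hB0]
      have f1 : v ^ (-(3 / 4) : ℝ) * |A ^ ((1 / 2) : ℝ) - (1 - t) ^ ((1 / 2) : ℝ)| ≤
        2 * x ^ ((1 / 2) : ℝ) := mul_le_mul e2 e1 (abs_nonneg _) (by norm_num)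
      have f2 : (1 - t) ^ ((1 / 2) : ℝ) * |v ^ (-(3 / 4) : ℝ) - 1| ≤ 1 * (2 * x) :=
        mul_le_mul hB1 e3 (abs_nonneg _) (by norm_num)
      linarith
    have e6 : 1 / 2 ≤ v ^ (-(3 / 4) : ℝ) := half_le_rpow_neg hv (by linarith) (by norm_num)
      (by norm_num)
    calc x ^ (-(9 / 4) : ℝ) * |v ^ (-(3 / 4) : ℝ) * A ^ ((1 / 2) : ℝ) - (1 - t) ^ ((1 / 2) : ℝ)|
        ≤ x ^ (-(9 / 4) : ℝ) * (4 * x ^ ((1 / 2) : ℝ)) := mul_le_mul_of_nonneg_left e5 hx94.le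
      _ = 4 * x ^ (-(7 / 4) : ℝ) := by rw [← hsplit]; ring
      _ ≤ 8 * (x ^ (-(7 / 4) : ℝ) * v ^ (-(3 / 4) : ℝ)) := by nlinarith
      _ ≤ _ := by
        have := mul_pos hx74 hv12
        linarith
  · -- away from zero
    have e1 : A ^ ((1 / 2) : ℝ) ≤ 2 * x ^ ((1 / 2) : ℝ) := by
      have h4 : (4 : ℝ) ^ ((1 / 2) : ℝ) = 2 := by
        rw [← Real.sqrt_eq_rpow]
        have : (4 : ℝ) = 2 ^ 2 := by norm_num
        rw [this, Real.sqrt_sq (by norm_num)]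
      have h5 : (4 * x) ^ ((1 / 2) : ℝ) = 2 * x ^ ((1 / 2) : ℝ) := by
        rw [Real.mul_rpow (by norm_num) hx.le, h4]
      rw [← h5]
      apply Real.rpow_le_rpow hA0 _ (by norm_num)
      have := (abs_le.mp hA1).2
      nlinarith
    have e2 : |v ^ (-(3 / 4) : ℝ) * A ^ ((1 / 2) : ℝ) - (1 - t) ^ ((1 / 2) : ℝ)| ≤
        2 * (v ^ (-(3 / 4) : ℝ) * x ^ ((1 / 2) : ℝ)) + 1 := by
      refine (abs_sub _ _).trans ?_
      rw [abs_of_nonneg (by positivity), abs_of_nonneg hB0]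
      have f1 := mul_le_mul_of_nonneg_left e1 hv34.le
      linarith
    have e3 : x ^ (-(9 / 4) : ℝ) ≤ 2 * (x ^ (-(7 / 4) : ℝ) * v ^ (-(1 / 2) : ℝ)) := by
      have h1 : x ^ (-(9 / 4) : ℝ) = x ^ (-(7 / 4) : ℝ) * x ^ (-(1 / 2) : ℝ) := by
        rw [← Real.rpow_add hx]
        norm_num
      have h2 : x ^ (-(1 / 2) : ℝ) ≤ 2 * v ^ (-(1 / 2) : ℝ) := by
        have h4 : (4 : ℝ) ^ (-(1 / 2) : ℝ) = 1 / 2 := by
          rw [Real.rpow_neg (by norm_num), ← Real.sqrt_eq_rpow]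
          have : (4 : ℝ) = 2 ^ 2 := by norm_num
          rw [this, Real.sqrt_sq (by norm_num)]
          norm_num
        have h5 : (4 * x) ^ (-(1 / 2) : ℝ) ≤ v ^ (-(1 / 2) : ℝ) :=
          Real.rpow_le_rpow_of_nonpos hv (by linarith) (by norm_num)
        rw [Real.mul_rpow (by norm_num) hx.le, h4] at h5
        linarith
      rw [h1]
      nlinarith
    calc x ^ (-(9 / 4) : ℝ) * |v ^ (-(3 / 4) : ℝ) * A ^ ((1 / 2) : ℝ) - (1 - t) ^ ((1 / 2) : ℝ)|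
        ≤ x ^ (-(9 / 4) : ℝ) * (2 * (v ^ (-(3 / 4) : ℝ) * x ^ ((1 / 2) : ℝ)) + 1) :=
          mul_le_mul_of_nonneg_left e2 hx94.le
      _ = 2 * (x ^ (-(7 / 4) : ℝ) * v ^ (-(3 / 4) : ℝ)) + x ^ (-(9 / 4) : ℝ) := by
        rw [← hsplit]; ring
      _ ≤ _ := by
        have := mul_pos hx74 hv34
        linarith

lemma ae_ne_one : ∀ᵐ u : ℂ, u ≠ 1 := by
  have : (volume : Measure ℂ) {1} = 0 := measure_singleton 1
  rw [ae_iff]
  convert this using 2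
  ext u
  simp

theorem H_integrable {t : ℝ} (ht : 0 ≤ t) (ht1 : t ≤ 1) : Integrable (fun u : ℂ =>
    ‖u‖ ^ (-(9 / 4) : ℝ) *
    (‖u - 1‖ ^ (-(3 / 4) : ℝ) * ‖(1 - (t : ℂ)) + (t : ℂ) * u‖ ^ ((1 / 2) : ℝ)
      - (1 - t) ^ ((1 / 2) : ℝ))) := by
  refine gH_integrable.mono' (FH_measurable t).aestronglyMeasurable ?_
  filter_upwards [ae_ne_one] with u hu
  exact FH_bound ht ht1 hu

theorem H_continuousOn : ContinuousOn H (Set.Icc 0 1) := by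
  refine continuousOn_of_dominated (bound := gH) (F := fun t u => FH t u)
    (fun t _ => (FH_measurable t).aestronglyMeasurable) ?_ gH_integrable ?_
  · intro t ht
    filter_upwards [ae_ne_one] with u hu
    exact FH_bound ht.1 ht.2 hu
  · refine Eventually.of_forall fun u => Continuous.continuousOn ?_
    unfold FH
    refine continuous_const.mul ((continuous_const.mul ?_).sub ?_)
    · exact Continuous.rpow_const (by fun_prop) (fun _ => Or.inr (by norm_num))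
    · exact Continuous.rpow_const (by fun_prop) (fun _ => Or.inr (by norm_num))

/-- the ball used to see strict inequalities -/
lemma ball_facts {u : ℂ} (hu : u ∈ Metric.ball (3 : ℂ) (1 / 2)) :
    0 < ‖u‖ ∧ 1 < ‖u - 1‖ := by
  rw [Metric.mem_ball, dist_eq_norm] at hu
  constructor
  · have h1 : ‖(3 : ℂ)‖ ≤ ‖u‖ + ‖u - 3‖ := by
      have : (3 : ℂ) = u - (u - 3) := by ring
      calc ‖(3 : ℂ)‖ = ‖u - (u - 3)‖ := by rw [← this]
        _ ≤ _ := norm_sub_le _ _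
    have h2 : ‖(3 : ℂ)‖ = 3 := by simp
    linarith
  · have h1 : ‖(2 : ℂ)‖ ≤ ‖u - 1‖ + ‖u - 3‖ := by
      have : (2 : ℂ) = (u - 1) - (u - 3) := by ring
      calc ‖(2 : ℂ)‖ = ‖(u - 1) - (u - 3)‖ := by rw [← this]
        _ ≤ _ := norm_sub_le _ _
    have h2 : ‖(2 : ℂ)‖ = 2 := by simp
    linarith

lemma ball_vol : 0 < (volume : Measure ℂ) (Metric.ball (3 : ℂ) (1 / 2)) :=
  Metric.measure_ball_pos _ _ (by norm_num)

lemma integral_pos_of_ball {F : ℂ → ℝ} (hF : Integrable F) (h0 : 0 ≤ᵐ[volume] F)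
    (hb : ∀ u ∈ Metric.ball (3 : ℂ) (1 / 2), 0 < F u) : 0 < ∫ u, F u := by
  rw [integral_pos_iff_support_of_nonneg_ae h0 hF]
  refine lt_of_lt_of_le ball_vol (measure_mono fun u hu => ?_)
  exact (hb u hu).ne'

lemma H_one_pos : 0 < H 1 := by
  unfold H
  refine integral_pos_of_ball (H_integrable (by norm_num) le_rfl) ?_ ?_
  · refine Eventually.of_forall fun u => ?_
    have h0 : ((1 : ℝ) - 1) ^ ((1 / 2) : ℝ) = 0 := by
      rw [sub_self, Real.zero_rpow (by norm_num)]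
    simp only [h0, sub_zero, Pi.zero_apply]
    positivity
  · intro u hu
    obtain ⟨h1, h2⟩ := ball_facts hu
    have h0 : ((1 : ℝ) - 1) ^ ((1 / 2) : ℝ) = 0 := by
      rw [sub_self, Real.zero_rpow (by norm_num)]
    rw [h0, sub_zero]
    have h3 : (1 - ((1 : ℝ) : ℂ)) + ((1 : ℝ) : ℂ) * u = u := by push_cast; ring
    rw [h3]
    have h4 : 0 < ‖u - 1‖ := by linarith
    positivity

/-- the comparison integrand -/
noncomputable def GH (u : ℂ) : ℝ :=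
  ‖u‖ ^ (-(9 / 4) : ℝ) * (‖u - 1‖ ^ (-(7 / 4) : ℝ) - 1)

noncomputable def gG (u : ℂ) : ℝ :=
  12 * (‖u‖ ^ (-(7 / 4) : ℝ) * ‖u - 1‖ ^ (-(3 / 4) : ℝ)) +
    2 * (‖u‖ ^ (-(7 / 4) : ℝ) * ‖u - 1‖ ^ (-(7 / 4) : ℝ)) +
    2 * (‖u‖ ^ (-(7 / 4) : ℝ) * ‖u - 1‖ ^ (-(1 / 2) : ℝ))

lemma gG_integrable : Integrable gG := by
  have h1 := two_point' (α := 7 / 4) (β := 3 / 4) (by norm_num) (by norm_num) (by norm_num)
    (by norm_num) (by norm_num)
  have h2 := two_point' (α := 7 / 4) (β := 1 / 2) (by norm_num) (by norm_num) (by norm_num)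
    (by norm_num) (by norm_num)
  have h3 := two_point' (α := 7 / 4) (β := 7 / 4) (by norm_num) (by norm_num) (by norm_num)
    (by norm_num) (by norm_num)
  exact ((h1.const_mul 12).add (h3.const_mul 2)).add (h2.const_mul 2)

lemma GH_measurable : Measurable GH := by
  unfold GH
  fun_prop

lemma inv_sqrt_compare {x v : ℝ} (hv : 0 < v) (hx : 0 < x) (h : v ≤ 4 * x) :
    x ^ (-(1 / 2) : ℝ) ≤ 2 * v ^ (-(1 / 2) : ℝ) := by
  have h4 : (4 : ℝ) ^ (-(1 / 2) : ℝ) = 1 / 2 := by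
    rw [Real.rpow_neg (by norm_num), ← Real.sqrt_eq_rpow]
    have : (4 : ℝ) = 2 ^ 2 := by norm_num
    rw [this, Real.sqrt_sq (by norm_num)]
    norm_num
  have h5 : (4 * x) ^ (-(1 / 2) : ℝ) ≤ v ^ (-(1 / 2) : ℝ) :=
    Real.rpow_le_rpow_of_nonpos hv h (by norm_num)
  rw [Real.mul_rpow (by norm_num) hx.le, h4] at h5
  linarith

lemma GH_bound {u : ℂ} (hu : u ≠ 1) : |GH u| ≤ gG u := by
  have hv : 0 < ‖u - 1‖ := norm_pos_iff.mpr (sub_ne_zero.mpr hu)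
  by_cases hu0 : u = 0
  · subst hu0
    have : GH 0 = 0 := by
      unfold GH
      rw [norm_zero, Real.zero_rpow (by norm_num), zero_mul]
    rw [this, abs_zero]
    unfold gG
    positivity
  have hx : 0 < ‖u‖ := norm_pos_iff.mpr hu0
  set x := ‖u‖ with hxdef
  set v := ‖u - 1‖ with hvdef
  have hvx1 : |v - 1| ≤ x := by
    have h1 := abs_norm_sub_norm_le (u - 1) (-1)
    rw [norm_neg, norm_one, sub_neg_eq_add, sub_add_cancel] at h1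
    exact h1
  have hv_le : v ≤ 1 + x := by
    have := (abs_le.mp hvx1).2
    linarith
  have hGH : GH u = x ^ (-(9 / 4) : ℝ) * (v ^ (-(7 / 4) : ℝ) - 1) := rfl
  have hgG : gG u = 12 * (x ^ (-(7 / 4) : ℝ) * v ^ (-(3 / 4) : ℝ)) +
    2 * (x ^ (-(7 / 4) : ℝ) * v ^ (-(7 / 4) : ℝ)) +
    2 * (x ^ (-(7 / 4) : ℝ) * v ^ (-(1 / 2) : ℝ)) := rfl
  have hx94 : 0 < x ^ (-(9 / 4) : ℝ) := Real.rpow_pos_of_pos hx _
  have hx74 : 0 < x ^ (-(7 / 4) : ℝ) := Real.rpow_pos_of_pos hx _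
  have hv34 : 0 < v ^ (-(3 / 4) : ℝ) := Real.rpow_pos_of_pos hv _
  have hv74 : 0 < v ^ (-(7 / 4) : ℝ) := Real.rpow_pos_of_pos hv _
  have hv12 : 0 < v ^ (-(1 / 2) : ℝ) := Real.rpow_pos_of_pos hv _
  have p1 := mul_pos hx74 hv34
  have p2 := mul_pos hx74 hv74
  have p3 := mul_pos hx74 hv12
  rw [hGH, hgG, abs_mul, abs_of_pos hx94]
  rcases le_or_gt x (1 / 2) with hx2 | hx2
  · have hv2 : 1 / 2 ≤ v := by
      have := (abs_le.mp hvx1).1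
      linarith
    have e1 : |v ^ (-(7 / 8) : ℝ) - 1| ≤ 2 * x := by
      refine (rpow_neg_sub_one hv2 (by norm_num) (by norm_num)).trans ?_
      linarith
    have e2 : v ^ (-(7 / 8) : ℝ) ≤ 2 := rpow_neg_le_two hv2 (by norm_num) (by norm_num)
    have e2' : 0 < v ^ (-(7 / 8) : ℝ) := Real.rpow_pos_of_pos hv _
    have e3 : v ^ (-(7 / 4) : ℝ) - 1 = (v ^ (-(7 / 8) : ℝ) - 1) * (v ^ (-(7 / 8) : ℝ) + 1) := by
      have : v ^ (-(7 / 4) : ℝ) = v ^ (-(7 / 8) : ℝ) * v ^ (-(7 / 8) : ℝ) := by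
        rw [← Real.rpow_add hv]
        norm_num
      rw [this]
      ring
    have e4 : |v ^ (-(7 / 4) : ℝ) - 1| ≤ 6 * x := by
      rw [e3, abs_mul, abs_of_pos (by linarith : 0 < v ^ (-(7 / 8) : ℝ) + 1)]
      have := mul_le_mul e1 (by linarith : v ^ (-(7 / 8) : ℝ) + 1 ≤ 3) (by linarith)
        (by linarith)
      linarith
    have e5 : x ^ (-(9 / 4) : ℝ) * x ≤ x ^ (-(7 / 4) : ℝ) := by
      calc x ^ (-(9 / 4) : ℝ) * x = x ^ (-(9 / 4) : ℝ) * x ^ (1 : ℝ) := by rw [Real.rpow_one]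
        _ = x ^ (-(5 / 4) : ℝ) := by
          rw [← Real.rpow_add hx]
          norm_num
        _ ≤ x ^ (-(7 / 4) : ℝ) :=
          Real.rpow_le_rpow_of_exponent_ge hx (by linarith) (by norm_num)
    have e6 : 1 / 2 ≤ v ^ (-(3 / 4) : ℝ) := half_le_rpow_neg hv (by linarith) (by norm_num)
      (by norm_num)
    calc x ^ (-(9 / 4) : ℝ) * |v ^ (-(7 / 4) : ℝ) - 1|
        ≤ x ^ (-(9 / 4) : ℝ) * (6 * x) := mul_le_mul_of_nonneg_left e4 hx94.le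
      _ = 6 * (x ^ (-(9 / 4) : ℝ) * x) := by ring
      _ ≤ 6 * x ^ (-(7 / 4) : ℝ) := by linarith
      _ ≤ 12 * (x ^ (-(7 / 4) : ℝ) * v ^ (-(3 / 4) : ℝ)) := by nlinarith
      _ ≤ _ := by linarith
  · have h1 : x ^ (-(9 / 4) : ℝ) = x ^ (-(7 / 4) : ℝ) * x ^ (-(1 / 2) : ℝ) := by
      rw [← Real.rpow_add hx]
      norm_num
    have e3 : x ^ (-(9 / 4) : ℝ) ≤ 2 * (x ^ (-(7 / 4) : ℝ) * v ^ (-(1 / 2) : ℝ)) := by
      have h2 := inv_sqrt_compare hv hx (by linarith)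
      rw [h1]
      nlinarith
    have e4 : x ^ (-(9 / 4) : ℝ) ≤ 2 * x ^ (-(7 / 4) : ℝ) := by
      have h2 : x ^ (-(1 / 2) : ℝ) ≤ 2 := rpow_neg_le_two hx2.le (by norm_num) (by norm_num)
      rw [h1]
      nlinarith
    have e5 : |v ^ (-(7 / 4) : ℝ) - 1| ≤ v ^ (-(7 / 4) : ℝ) + 1 := by
      refine (abs_sub _ _).trans ?_
      rw [abs_of_pos hv74, abs_one]
    calc x ^ (-(9 / 4) : ℝ) * |v ^ (-(7 / 4) : ℝ) - 1|
        ≤ x ^ (-(9 / 4) : ℝ) * (v ^ (-(7 / 4) : ℝ) + 1) :=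
          mul_le_mul_of_nonneg_left e5 hx94.le
      _ = x ^ (-(9 / 4) : ℝ) * v ^ (-(7 / 4) : ℝ) + x ^ (-(9 / 4) : ℝ) := by ring
      _ ≤ _ := by
        have := mul_le_mul_of_nonneg_right e4 hv74.le
        linarith

lemma GH_integrable : Integrable GH := by
  refine gG_integrable.mono' GH_measurable.aestronglyMeasurable ?_
  filter_upwards [ae_ne_one] with u hu
  exact GH_bound hu

/-- the involution `u / (u - 1)` -/
noncomputable def inv1 (u : ℂ) : ℂ := u / (u - 1)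

lemma inv1_sub_one {u : ℂ} (hu : u ≠ 1) : inv1 u - 1 = (u - 1)⁻¹ := by
  have : u - 1 ≠ 0 := sub_ne_zero.mpr hu
  unfold inv1
  field_simp
  ring

lemma inv1_ne_one {u : ℂ} (hu : u ≠ 1) : inv1 u ≠ 1 := by
  have h : u - 1 ≠ 0 := sub_ne_zero.mpr hu
  intro h1
  have := inv1_sub_one hu
  rw [h1, sub_self] at this
  exact inv_ne_zero h this.symm

lemma inv1_inv1 {u : ℂ} (hu : u ≠ 1) : inv1 (inv1 u) = u := by
  have h : u - 1 ≠ 0 := sub_ne_zero.mpr hu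
  have h2 := inv1_sub_one hu
  have : inv1 (inv1 u) = inv1 u / (inv1 u - 1) := rfl
  rw [this, h2, inv1, div_inv_eq_mul]
  field_simp

lemma inv1_image : inv1 '' {u : ℂ | u ≠ 1} = {u : ℂ | u ≠ 1} := by
  ext w
  constructor
  · rintro ⟨u, hu, rfl⟩
    exact inv1_ne_one hu
  · intro hw
    exact ⟨inv1 w, inv1_ne_one hw, inv1_inv1 hw⟩

lemma inv1_hasDerivAt {u : ℂ} (hu : u ≠ 1) :
    HasDerivAt inv1 (-((u - 1) ^ 2)⁻¹) u := by
  have h : u - 1 ≠ 0 := sub_ne_zero.mpr hu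
  have h1 := (hasDerivAt_id u).div ((hasDerivAt_id u).sub_const 1) h
  have h2 : (1 * (u - 1) - u * 1) / (u - 1) ^ 2 = -((u - 1) ^ 2)⁻¹ := by
    field_simp
    ring
  have h3 := h1.congr_deriv h2
  exact h3

lemma det_restrict (c : ℂ) (L : ℂ →L[ℝ] ℂ) (hL : ∀ z, L z = c * z) : L.det = ‖c‖ ^ 2 := by
  have h1 : (L : ℂ →ₗ[ℝ] ℂ) = Algebra.lmul ℝ ℂ c := by
    ext1 z
    simp [hL]
  rw [ContinuousLinearMap.det, h1, ← Algebra.norm_apply, Algebra.norm_complex_apply,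
    Complex.normSq_eq_norm_sq]

lemma GH_inv1 {u : ℂ} (hu : u ≠ 1) (hu0 : u ≠ 0) :
    ‖-((u - 1) ^ 2)⁻¹‖ ^ 2 * GH (inv1 u) = - GH u := by
  have hv : 0 < ‖u - 1‖ := norm_pos_iff.mpr (sub_ne_zero.mpr hu)
  have hx : 0 < ‖u‖ := norm_pos_iff.mpr hu0
  unfold GH
  rw [inv1_sub_one hu, inv1, norm_neg, norm_inv, norm_inv, norm_pow, norm_div]
  set x := ‖u‖
  set v := ‖u - 1‖
  have e1 : (x / v) ^ (-(9 / 4) : ℝ) = x ^ (-(9 / 4) : ℝ) * v ^ ((9 / 4) : ℝ) := by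
    rw [Real.div_rpow hx.le hv.le, Real.rpow_neg hv.le, div_inv_eq_mul]
  have e2 : (v⁻¹) ^ (-(7 / 4) : ℝ) = v ^ ((7 / 4) : ℝ) := by
    rw [Real.inv_rpow hv.le, Real.rpow_neg hv.le, inv_inv]
  have e3 : ((v ^ 2)⁻¹) ^ 2 = v ^ (-4 : ℝ) := by
    have h4 : (4 : ℝ) = ((4 : ℕ) : ℝ) := by norm_num
    rw [Real.rpow_neg hv.le, inv_pow, ← pow_mul, h4, Real.rpow_natCast]
  rw [e1, e2, e3]
  have e4 : v ^ (-4 : ℝ) * v ^ ((9 / 4) : ℝ) = v ^ (-(7 / 4) : ℝ) := by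
    rw [← Real.rpow_add hv]
    norm_num
  have e5 : v ^ (-(7 / 4) : ℝ) * v ^ ((7 / 4) : ℝ) = 1 := by
    rw [← Real.rpow_add hv]
    norm_num
  calc v ^ (-4 : ℝ) * (x ^ (-(9 / 4) : ℝ) * v ^ ((9 / 4) : ℝ) * (v ^ ((7 / 4) : ℝ) - 1))
      = x ^ (-(9 / 4) : ℝ) * (v ^ (-4 : ℝ) * v ^ ((9 / 4) : ℝ)) * (v ^ ((7 / 4) : ℝ) - 1) := by
        ring
    _ = x ^ (-(9 / 4) : ℝ) * (v ^ (-(7 / 4) : ℝ) * v ^ ((7 / 4) : ℝ) - v ^ (-(7 / 4) : ℝ)) := by
        rw [e4]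
        ring
    _ = _ := by
        rw [e5]
        ring

lemma GH_integral : ∫ u, GH u = 0 := by
  have hms : MeasurableSet {u : ℂ | u ≠ 1} := (measurableSet_singleton (1 : ℂ)).compl
  have hres : ∫ u in {u : ℂ | u ≠ 1}, GH u = ∫ u, GH u := by
    rw [Measure.restrict_eq_self_of_ae_mem]
    exact ae_ne_one
  have hinj : Set.InjOn inv1 {u : ℂ | u ≠ 1} := by
    intro a ha b hb hab
    rw [← inv1_inv1 ha, ← inv1_inv1 hb, hab]
  have key := integral_image_eq_integral_abs_det_fderiv_smul (volume : Measure ℂ) hms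
    (f := inv1)
    (fun u hu => ((inv1_hasDerivAt hu).hasFDerivAt.restrictScalars ℝ).hasFDerivWithinAt)
    hinj GH
  rw [inv1_image, hres] at key
  have h2 : ∫ u in {u : ℂ | u ≠ 1}, |((ContinuousLinearMap.restrictScalars ℝ
      (ContinuousLinearMap.toSpanSingleton ℂ (-((u - 1) ^ 2)⁻¹))).det)| • GH (inv1 u) =
      ∫ u in {u : ℂ | u ≠ 1}, - GH u := by
    apply integral_congr_ae
    have h0 : ∀ᵐ u ∂(volume.restrict {u : ℂ | u ≠ 1}), u ≠ (0 : ℂ) := by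
      apply ae_restrict_of_ae
      have : (volume : Measure ℂ) {0} = 0 := measure_singleton 0
      rw [ae_iff]
      convert this using 2
      ext u
      simp
    filter_upwards [h0, ae_restrict_mem hms] with u hu0 hu1
    have hd := det_restrict (-((u - 1) ^ 2)⁻¹) (ContinuousLinearMap.restrictScalars ℝ
      (ContinuousLinearMap.toSpanSingleton ℂ (-((u - 1) ^ 2)⁻¹))) (fun z => by
        simp [mul_comm])
    rw [hd, abs_of_nonneg (by positivity), smul_eq_mul]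
    exact GH_inv1 hu1 hu0
  have h3 := key.trans h2
  rw [integral_neg, hres] at h3
  linarith

lemma amgm {x : ℝ} (hx : 0 < x) :
    x ^ (-(3 / 4) : ℝ) ≤ 4 / 7 + 3 / 7 * x ^ (-(7 / 4) : ℝ) := by
  have h := Real.geom_mean_le_arith_mean2_weighted (w₁ := 4 / 7) (w₂ := 3 / 7) (p₁ := 1)
    (p₂ := x ^ (-(7 / 4) : ℝ)) (by norm_num) (by norm_num) (by norm_num) (by positivity)
    (by norm_num)
  rw [Real.one_rpow, one_mul, ← Real.rpow_mul hx.le] at h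
  have : (-(7 / 4) * (3 / 7) : ℝ) = -(3 / 4) := by norm_num
  rw [this] at h
  linarith

lemma amgm_strict {x : ℝ} (hx : 1 < x) :
    x ^ (-(3 / 4) : ℝ) < 4 / 7 + 3 / 7 * x ^ (-(7 / 4) : ℝ) := by
  have hx0 : 0 < x := by linarith
  set y := x ^ (-(1 / 4) : ℝ) with hy
  have hy0 : 0 < y := Real.rpow_pos_of_pos hx0 _
  have hy1 : y < 1 := Real.rpow_lt_one_of_one_lt_of_neg hx (by norm_num)
  have h3 : x ^ (-(3 / 4) : ℝ) = y ^ 3 := by
    rw [hy, ← Real.rpow_natCast, ← Real.rpow_mul hx0.le]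
    norm_num
  have h7 : x ^ (-(7 / 4) : ℝ) = y ^ 7 := by
    rw [hy, ← Real.rpow_natCast, ← Real.rpow_mul hx0.le]
    norm_num
  rw [h3, h7]
  have key : 4 / 7 + 3 / 7 * y ^ 7 - y ^ 3 =
      (1 - y) ^ 2 * (3 * y ^ 5 + 6 * y ^ 4 + 9 * y ^ 3 + 12 * y ^ 2 + 8 * y + 4) / 7 := by ring
  have h1y : 0 < 1 - y := by linarith
  have : 0 < 4 / 7 + 3 / 7 * y ^ 7 - y ^ 3 := by
    rw [key]
    positivity
  linarith

lemma H_zero_neg : H 0 < 0 := by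
  have h0 : H 0 = ∫ u, FH 0 u := rfl
  have hi : Integrable (FH 0) := H_integrable le_rfl (by norm_num)
  have hpos : 0 < ∫ u, (3 / 7 * GH u - FH 0 u) := by
    refine integral_pos_of_ball ((GH_integrable.const_mul _).sub hi) ?_ ?_
    · filter_upwards [ae_ne_one] with u hu
      have hv : 0 < ‖u - 1‖ := norm_pos_iff.mpr (sub_ne_zero.mpr hu)
      have h1 := amgm hv
      simp only [GH, FH, Pi.zero_apply]
      have h2 : (1 - ((0 : ℝ) : ℂ)) + ((0 : ℝ) : ℂ) * u = 1 := by push_cast; ring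
      rw [h2, norm_one, Real.one_rpow, mul_one, sub_zero, Real.one_rpow]
      have h3 : 0 ≤ ‖u‖ ^ (-(9 / 4) : ℝ) := by positivity
      nlinarith
    · intro u hu
      obtain ⟨h1, h2⟩ := ball_facts hu
      have h4 := amgm_strict h2
      simp only [GH, FH]
      have h5 : (1 - ((0 : ℝ) : ℂ)) + ((0 : ℝ) : ℂ) * u = 1 := by push_cast; ring
      rw [h5, norm_one, Real.one_rpow, mul_one, sub_zero, Real.one_rpow]
      have h3 : 0 < ‖u‖ ^ (-(9 / 4) : ℝ) := by positivity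
      nlinarith
  rw [integral_sub (GH_integrable.const_mul _) hi, integral_const_mul, GH_integral, mul_zero,
    zero_sub] at hpos
  rw [h0]
  linarith

theorem exists_H_eq_zero : ∃ t : ℝ, 0 < t ∧ t < 1 ∧ H t = 0 := by
  have h := intermediate_value_Icc (by norm_num : (0 : ℝ) ≤ 1) H_continuousOn
  obtain ⟨t, ht, hHt⟩ := h ⟨H_zero_neg.le, H_one_pos.le⟩
  refine ⟨t, lt_of_le_of_ne ht.1 ?_, lt_of_le_of_ne ht.2 ?_, hHt⟩
  · rintro rfl
    exact absurd hHt H_zero_neg.ne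
  · rintro rfl
    exact absurd hHt H_one_pos.ne'

end Pool.Agent.helper31.AZ
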